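import Pool.Agent.Q107.Bn.CombLower

/-!
# The difference `i_h(G) - i_bn(G)` is unbounded

The definitions `ecc`, `IsBroadcast`, `Hears`, `IsBnIndep`, `IsHearingIndep`, `IsMaximalBn`,
`IsMaximalHearing`, `iBn` and `iH` are in `Pool.Agent.Q107.Bn.Defs`.
-/

set_option autoImplicit false

namespace Pool.Agent.Results.MP_511249_co.Unbounded

open Q107.Bn

/-- For every `k` there is a finite connected graph `G` with `i_h(G) - i_bn(G) ≥ k`. -/
theorem result (k : ℕ) :
    ∃ (V : Type) (_ : Fintype V) (G : SimpleGraph V), G.Connected ∧ iBn G + k ≤ iH G :=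
  Comb.unbounded k

end Pool.Agent.Results.MP_511249_co.Unbounded
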